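import Pool.Agent.Helper37.Arb.Goals

/-!
PROJECT ARB (MP_2b0227_gt), packet ARB-MAT: block forms of the open matrices.
-/

namespace Pool.Agent.Helper12.Arb

open Pool.Agent.Helper36.SC Pool.Agent.Helper37.Arb

section entries

variable (M : Marked) (x : ℝ)

/-- Entries of the open matrix of a parallel tangle. -/
theorem openMat_true_apply (i j : M.V) :
    openMat true M x i j = (1 + x) * (if j = i then 1 else 0)
      - (if i = M.l then 0 else fwd M.D x i * (if j = M.D.underNext i then 1 else 0))
      - (if i = M.D.overNext M.r then 0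
          else bwd M.D x i * (if j = M.D.overNext.symm i then 1 else 0)) := by
  simp only [openMat, lap, stepU, stepO, Matrix.add_apply, Matrix.of_apply, Matrix.single_apply,
    if_true]
  by_cases h1 : i = M.l
  · subst h1
    by_cases h2 : M.l = M.D.overNext M.r
    · rw [if_pos rfl, if_pos h2]
      have h3 : M.D.overNext.symm M.l = M.r := by rw [h2, Equiv.symm_apply_apply]
      rw [h3, ← h2]
      by_cases h4 : j = M.D.underNext M.l
      · by_cases h5 : j = M.r
        · simp [h5, ← h4]
          ring
        · have h6 : ¬ (M.r = j) := fun h => h5 h.symm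
          simp [h5, h6, ← h4]
      · have h4' : ¬ (M.D.underNext M.l = j) := fun h => h4 h.symm
        by_cases h5 : j = M.r
        · subst h5
          simp [h4, h4']
        · have h6 : ¬ (M.r = j) := fun h => h5 h.symm
          simp [h5, h6, h4, h4']
    · have h2' : ¬ (M.D.overNext M.r = M.l) := fun h => h2 h.symm
      rw [if_pos rfl, if_neg h2]
      by_cases h4 : j = M.D.underNext M.l
      · simp [h2', ← h4]
        ring
      · have h4' : ¬ (M.D.underNext M.l = j) := fun h => h4 h.symm
        simp [h2', h4, h4']
  · have h1' : ¬ (M.l = i) := fun h => h1 h.symm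
    by_cases h2 : i = M.D.overNext M.r
    · subst h2
      rw [if_neg h1, if_pos rfl, Equiv.symm_apply_apply]
      by_cases h5 : j = M.r
      · subst h5
        simp [h1']
      · have h6 : ¬ (M.r = j) := fun h => h5 h.symm
        simp [h5, h6, h1']
    · have h2' : ¬ (M.D.overNext M.r = i) := fun h => h2 h.symm
      simp [h1, h1', h2, h2']

/-- Entries of the open matrix of an antiparallel tangle. -/
theorem openMat_false_apply (hlr : M.l ≠ M.r) (i j : M.V) :
    openMat false M x i j = (1 + x) * (if j = i then 1 else 0)
      - (if i = M.l ∨ i = M.r then 0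
          else fwd M.D x i * (if j = M.D.underNext i then 1 else 0))
      - bwd M.D x i * (if j = M.D.overNext.symm i then 1 else 0) := by
  simp only [openMat, lap, stepU, Matrix.add_apply, Matrix.of_apply, Matrix.single_apply,
    Bool.false_eq_true, if_false]
  by_cases h1 : i = M.l
  · subst h1
    have hlr' : ¬ (M.r = M.l) := fun h => hlr h.symm
    by_cases h4 : j = M.D.underNext M.l
    · simp [hlr', ← h4]
      ring
    · have h4' : ¬ (M.D.underNext M.l = j) := fun h => h4 h.symm
      simp [hlr', h4, h4']
  · have h1' : ¬ (M.l = i) := fun h => h1 h.symm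
    by_cases h2 : i = M.r
    · subst h2
      by_cases h4 : j = M.D.underNext M.r
      · simp [hlr, ← h4]
        ring
      · have h4' : ¬ (M.D.underNext M.r = j) := fun h => h4 h.symm
        simp [hlr, h4, h4']
    · have h2' : ¬ (M.r = i) := fun h => h2 h.symm
      simp [h1, h1', h2, h2']

end entries

/-- underpass successor in a diagram with exchanged ends -/
theorem swapUnder_inl {V W : Type} [DecidableEq V] [DecidableEq W] (D : AltDiagram V)
    (E : AltDiagram W) (v : V) (w : W) (u : V) :
    (swapUnder (Pool.Agent.Helper37.Arb.union D E) (.inl v) (.inr w)).underNext (.inl u) =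
      if u = v then .inr (E.underNext w) else .inl (D.underNext u) := by
  by_cases h : u = v
  · subst h
    simp [swapUnder, Pool.Agent.Helper37.Arb.union]
  · simp [swapUnder, Pool.Agent.Helper37.Arb.union, Equiv.swap_apply_def, h]

/-- underpass successor in a diagram with exchanged ends -/
theorem swapUnder_inr {V W : Type} [DecidableEq V] [DecidableEq W] (D : AltDiagram V)
    (E : AltDiagram W) (v : V) (w : W) (u : W) :
    (swapUnder (Pool.Agent.Helper37.Arb.union D E) (.inl v) (.inr w)).underNext (.inr u) =
      if u = w then .inl (D.underNext v) else .inr (E.underNext u) := by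
  by_cases h : u = w
  · subst h
    simp [swapUnder, Pool.Agent.Helper37.Arb.union]
  · simp [swapUnder, Pool.Agent.Helper37.Arb.union, Equiv.swap_apply_def, h]

/-- overpass successor in a diagram with exchanged ends -/
theorem swapOver_inl {V W : Type} [DecidableEq V] [DecidableEq W] (D : AltDiagram V)
    (E : AltDiagram W) (v : V) (w : W) (u : V) :
    (swapOver (Pool.Agent.Helper37.Arb.union D E) (.inl v) (.inr w)).overNext (.inl u) =
      if u = v then .inr (E.overNext w) else .inl (D.overNext u) := by
  by_cases h : u = v
  · subst h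
    simp [swapOver, Pool.Agent.Helper37.Arb.union]
  · simp [swapOver, Pool.Agent.Helper37.Arb.union, Equiv.swap_apply_def, h]

/-- overpass successor in a diagram with exchanged ends -/
theorem swapOver_inr {V W : Type} [DecidableEq V] [DecidableEq W] (D : AltDiagram V)
    (E : AltDiagram W) (v : V) (w : W) (u : W) :
    (swapOver (Pool.Agent.Helper37.Arb.union D E) (.inl v) (.inr w)).overNext (.inr u) =
      if u = w then .inl (D.overNext v) else .inr (E.overNext u) := by
  by_cases h : u = w
  · subst h
    simp [swapOver, Pool.Agent.Helper37.Arb.union]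
  · simp [swapOver, Pool.Agent.Helper37.Arb.union, Equiv.swap_apply_def, h]

/-- overpass predecessor in a diagram with exchanged ends -/
theorem swapOver_symm_inl {V W : Type} [DecidableEq V] [DecidableEq W] (D : AltDiagram V)
    (E : AltDiagram W) (v : V) (w : W) (u : V) :
    (swapOver (Pool.Agent.Helper37.Arb.union D E) (.inl v) (.inr w)).overNext.symm (.inl u) =
      if u = D.overNext v then .inr w else .inl (D.overNext.symm u) := by
  rw [Equiv.symm_apply_eq]
  by_cases h : u = D.overNext v
  · rw [if_pos h, swapOver_inr, if_pos rfl, h]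
  · have h' : ¬ (D.overNext.symm u = v) := fun h2 => h (by rw [← h2, Equiv.apply_symm_apply])
    rw [if_neg h, swapOver_inl, if_neg h', Equiv.apply_symm_apply]

/-- overpass predecessor in a diagram with exchanged ends -/
theorem swapOver_symm_inr {V W : Type} [DecidableEq V] [DecidableEq W] (D : AltDiagram V)
    (E : AltDiagram W) (v : V) (w : W) (u : W) :
    (swapOver (Pool.Agent.Helper37.Arb.union D E) (.inl v) (.inr w)).overNext.symm (.inr u) =
      if u = E.overNext w then .inl v else .inr (E.overNext.symm u) := by
  rw [Equiv.symm_apply_eq]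
  by_cases h : u = E.overNext w
  · rw [if_pos h, swapOver_inl, if_pos rfl, h]
  · have h' : ¬ (E.overNext.symm u = w) := fun h2 => h (by rw [← h2, Equiv.apply_symm_apply])
    rw [if_neg h, swapOver_inr, if_neg h', Equiv.apply_symm_apply]

/-- The stacked marked diagram. -/
theorem stack_aux (M N : Marked) (x : ℝ) :
    openMat true
      { V := M.V ⊕ N.V
        D := swapOver (swapUnder (Pool.Agent.Helper37.Arb.union M.D N.D) (.inl M.l) (.inr N.l))
          (.inl M.r) (.inr N.r)
        l := .inr N.l
        r := .inr N.r } x =
    Matrix.fromBlocks (openMat true M x)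
      (-Matrix.single M.l (N.D.underNext N.l) (fwd M.D x M.l))
      (-Matrix.single (N.D.overNext N.r) M.r (bwd N.D x (N.D.overNext N.r)))
      (openMat true N x) := by
  generalize hD : swapOver (swapUnder (Pool.Agent.Helper37.Arb.union M.D N.D) (.inl M.l)
    (.inr N.l)) (.inl M.r) (.inr N.r) = D
  have hU1 : ∀ u : M.V, D.underNext (.inl u) =
      if u = M.l then .inr (N.D.underNext N.l) else .inl (M.D.underNext u) := by
    subst hD
    exact fun u => swapUnder_inl M.D N.D M.l N.l u
  have hU2 : ∀ u : N.V, D.underNext (.inr u) =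
      if u = N.l then .inl (M.D.underNext M.l) else .inr (N.D.underNext u) := by
    subst hD
    exact fun u => swapUnder_inr M.D N.D M.l N.l u
  have hO2 : D.overNext (.inr N.r) = .inl (M.D.overNext M.r) := by
    subst hD
    have := swapOver_inr M.D N.D M.r N.r N.r
    rw [if_pos rfl] at this
    exact this
  have hS1 : ∀ u : M.V, D.overNext.symm (.inl u) =
      if u = M.D.overNext M.r then .inr N.r else .inl (M.D.overNext.symm u) := by
    subst hD
    exact fun u => swapOver_symm_inl M.D N.D M.r N.r u
  have hS2 : ∀ u : N.V, D.overNext.symm (.inr u) =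
      if u = N.D.overNext N.r then .inl M.r else .inr (N.D.overNext.symm u) := by
    subst hD
    exact fun u => swapOver_symm_inr M.D N.D M.r N.r u
  have e1 : ∀ u, fwd D x (.inl u) = fwd M.D x u := by
    subst hD
    exact fun _ => rfl
  have e2 : ∀ u, bwd D x (.inl u) = bwd M.D x u := by
    subst hD
    exact fun _ => rfl
  have e3 : ∀ u, fwd D x (.inr u) = fwd N.D x u := by
    subst hD
    exact fun _ => rfl
  have e4 : ∀ u, bwd D x (.inr u) = bwd N.D x u := by
    subst hD
    exact fun _ => rfl
  ext i j
  rw [openMat_true_apply]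
  rcases i with i | i <;> rcases j with j | j
  · rw [Matrix.fromBlocks_apply₁₁, openMat_true_apply]
    simp only [hU1, hO2, hS1, e1, e2, Sum.inl.injEq, reduceCtorEq, if_false]
    by_cases h1 : i = M.l <;> by_cases h2 : i = M.D.overNext M.r
    · simp only [if_pos h1, if_pos h2, reduceCtorEq, if_false, mul_zero]
    · simp only [if_pos h1, if_neg h2, reduceCtorEq, if_false, mul_zero, Sum.inl.injEq]
    · simp only [if_neg h1, if_pos h2, reduceCtorEq, if_false, mul_zero, Sum.inl.injEq]
    · simp only [if_neg h1, if_neg h2, Sum.inl.injEq]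
  · rw [Matrix.fromBlocks_apply₁₂, Matrix.neg_apply, Matrix.single_apply]
    simp only [hU1, hO2, hS1, e1, e2, Sum.inl.injEq, reduceCtorEq, if_false]
    have hz : (if i = M.D.overNext M.r then (0 : ℝ) else bwd M.D x i *
        (if Sum.inr j = (if i = M.D.overNext M.r then Sum.inr N.r
          else Sum.inl (M.D.overNext.symm i) : M.V ⊕ N.V) then 1 else 0)) = 0 := by
      by_cases h2 : i = M.D.overNext M.r
      · rw [if_pos h2]
      · simp only [if_neg h2, reduceCtorEq, if_false, mul_zero]
    rw [hz]
    by_cases h1 : i = M.l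
    · subst h1
      by_cases h3 : j = N.D.underNext N.l
      · subst h3
        simp
      · have h3' : ¬ (N.D.underNext N.l = j) := fun h => h3 h.symm
        simp [h3, h3']
    · have h1' : ¬ (M.l = i) := fun h => h1 h.symm
      simp only [if_neg h1, h1', false_and, reduceCtorEq, if_false]
      simp
  · rw [Matrix.fromBlocks_apply₂₁, Matrix.neg_apply, Matrix.single_apply]
    simp only [hU2, hO2, hS2, e3, e4, Sum.inr.injEq, reduceCtorEq, if_false]
    have hz : (if i = N.l then (0 : ℝ) else fwd N.D x i *
        (if Sum.inl j = (if i = N.l then Sum.inl (M.D.underNext M.l)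
          else Sum.inr (N.D.underNext i) : M.V ⊕ N.V) then 1 else 0)) = 0 := by
      by_cases h2 : i = N.l
      · rw [if_pos h2]
      · simp only [if_neg h2, reduceCtorEq, if_false, mul_zero]
    rw [hz]
    by_cases h1 : i = N.D.overNext N.r
    · subst h1
      by_cases h3 : j = M.r
      · subst h3
        simp
      · have h3' : ¬ (M.r = j) := fun h => h3 h.symm
        simp [h3, h3']
    · have h1' : ¬ (N.D.overNext N.r = i) := fun h => h1 h.symm
      simp only [if_neg h1, h1', false_and, reduceCtorEq, if_false]
      simp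
  · rw [Matrix.fromBlocks_apply₂₂, openMat_true_apply]
    simp only [hU2, hO2, hS2, e3, e4, Sum.inr.injEq, reduceCtorEq, if_false]
    by_cases h1 : i = N.l <;> by_cases h2 : i = N.D.overNext N.r
    · simp only [if_pos h1, if_pos h2, reduceCtorEq, if_false, mul_zero]
    · simp only [if_pos h1, if_neg h2, reduceCtorEq, if_false, mul_zero, Sum.inr.injEq]
    · simp only [if_neg h1, if_pos h2, reduceCtorEq, if_false, mul_zero, Sum.inr.injEq]
    · simp only [if_neg h1, if_neg h2, Sum.inr.injEq]

/-- The marked diagram of `opposite`. -/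
theorem opposite_aux (M N : Marked) (x : ℝ) :
    openMat false
      { V := M.V ⊕ N.V
        D := swapOver (Pool.Agent.Helper37.Arb.union M.D N.D) (.inl M.r) (.inr N.r)
        l := .inl M.l
        r := .inr N.l } x =
    Matrix.fromBlocks (openMat true M x)
      (-Matrix.single (M.D.overNext M.r) N.r (bwd M.D x (M.D.overNext M.r)))
      (-Matrix.single (N.D.overNext N.r) M.r (bwd N.D x (N.D.overNext N.r)))
      (openMat true N x) := by
  generalize hD : swapOver (Pool.Agent.Helper37.Arb.union M.D N.D) (.inl M.r) (.inr N.r) = D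
  have hU1 : ∀ u : M.V, D.underNext (.inl u) = .inl (M.D.underNext u) := by
    subst hD
    exact fun u => rfl
  have hU2 : ∀ u : N.V, D.underNext (.inr u) = .inr (N.D.underNext u) := by
    subst hD
    exact fun u => rfl
  have hS1 : ∀ u : M.V, D.overNext.symm (.inl u) =
      if u = M.D.overNext M.r then .inr N.r else .inl (M.D.overNext.symm u) := by
    subst hD
    exact fun u => swapOver_symm_inl M.D N.D M.r N.r u
  have hS2 : ∀ u : N.V, D.overNext.symm (.inr u) =
      if u = N.D.overNext N.r then .inl M.r else .inr (N.D.overNext.symm u) := by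
    subst hD
    exact fun u => swapOver_symm_inr M.D N.D M.r N.r u
  have e1 : ∀ u, fwd D x (.inl u) = fwd M.D x u := by
    subst hD
    exact fun _ => rfl
  have e2 : ∀ u, bwd D x (.inl u) = bwd M.D x u := by
    subst hD
    exact fun _ => rfl
  have e3 : ∀ u, fwd D x (.inr u) = fwd N.D x u := by
    subst hD
    exact fun _ => rfl
  have e4 : ∀ u, bwd D x (.inr u) = bwd N.D x u := by
    subst hD
    exact fun _ => rfl
  ext i j
  rw [openMat_false_apply _ _ Sum.inl_ne_inr]
  rcases i with i | i <;> rcases j with j | j
  · rw [Matrix.fromBlocks_apply₁₁, openMat_true_apply]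
    simp only [hU1, hS1, e1, e2, Sum.inl.injEq, reduceCtorEq, or_false]
    by_cases h2 : i = M.D.overNext M.r
    · simp only [if_pos h2, reduceCtorEq, if_false, mul_zero]
    · simp only [if_neg h2, Sum.inl.injEq]
  · rw [Matrix.fromBlocks_apply₁₂, Matrix.neg_apply, Matrix.single_apply]
    simp only [hU1, hS1, e1, e2, Sum.inl.injEq, reduceCtorEq, if_false, or_false, mul_zero,
      ite_self]
    by_cases h1 : i = M.D.overNext M.r
    · subst h1
      by_cases h3 : j = N.r
      · subst h3
        simp
      · have h3' : ¬ (N.r = j) := fun h => h3 h.symm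
        simp [h3, h3']
    · have h1' : ¬ (M.D.overNext M.r = i) := fun h => h1 h.symm
      simp only [if_neg h1, h1', false_and, reduceCtorEq, if_false]
      simp
  · rw [Matrix.fromBlocks_apply₂₁, Matrix.neg_apply, Matrix.single_apply]
    simp only [hU2, hS2, e3, e4, Sum.inr.injEq, reduceCtorEq, if_false, false_or, mul_zero,
      ite_self]
    by_cases h1 : i = N.D.overNext N.r
    · subst h1
      by_cases h3 : j = M.r
      · subst h3
        simp
      · have h3' : ¬ (M.r = j) := fun h => h3 h.symm
        simp [h3, h3']
    · have h1' : ¬ (N.D.overNext N.r = i) := fun h => h1 h.symm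
      simp only [if_neg h1, h1', false_and, reduceCtorEq, if_false]
      simp
  · rw [Matrix.fromBlocks_apply₂₂, openMat_true_apply]
    simp only [hU2, hS2, e3, e4, Sum.inr.injEq, reduceCtorEq, false_or]
    by_cases h2 : i = N.D.overNext N.r
    · simp only [if_pos h2, reduceCtorEq, if_false, mul_zero]
    · simp only [if_neg h2, Sum.inr.injEq]

/-- The marked diagram of `beside`. -/
theorem beside_aux (M N : Marked) (x : ℝ) (hM : M.l ≠ M.r) :
    openMat true
      { V := M.V ⊕ N.V
        D := swapUnder (Pool.Agent.Helper37.Arb.union M.D N.D) (.inl M.r) (.inr N.l)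
        l := .inl M.l
        r := .inr N.r } x =
    Matrix.fromBlocks (openMat false M x)
      (-Matrix.single M.r (N.D.underNext N.l) (fwd M.D x M.r))
      (-Matrix.single N.l (M.D.underNext M.r) (fwd N.D x N.l))
      (openMat true N x) := by
  generalize hD : swapUnder (Pool.Agent.Helper37.Arb.union M.D N.D) (.inl M.r) (.inr N.l) = D
  have hU1 : ∀ u : M.V, D.underNext (.inl u) =
      if u = M.r then .inr (N.D.underNext N.l) else .inl (M.D.underNext u) := by
    subst hD
    exact fun u => swapUnder_inl M.D N.D M.r N.l u
  have hU2 : ∀ u : N.V, D.underNext (.inr u) =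
      if u = N.l then .inl (M.D.underNext M.r) else .inr (N.D.underNext u) := by
    subst hD
    exact fun u => swapUnder_inr M.D N.D M.r N.l u
  have hO : D.overNext = Equiv.sumCongr M.D.overNext N.D.overNext := by
    subst hD
    rfl
  have hO2 : D.overNext (.inr N.r) = .inr (N.D.overNext N.r) := by
    rw [hO]
    rfl
  have hS1 : ∀ u : M.V, D.overNext.symm (.inl u) = .inl (M.D.overNext.symm u) := by
    rw [hO]
    exact fun u => rfl
  have hS2 : ∀ u : N.V, D.overNext.symm (.inr u) = .inr (N.D.overNext.symm u) := by
    rw [hO]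
    exact fun u => rfl
  have e1 : ∀ u, fwd D x (.inl u) = fwd M.D x u := by
    subst hD
    exact fun _ => rfl
  have e2 : ∀ u, bwd D x (.inl u) = bwd M.D x u := by
    subst hD
    exact fun _ => rfl
  have e3 : ∀ u, fwd D x (.inr u) = fwd N.D x u := by
    subst hD
    exact fun _ => rfl
  have e4 : ∀ u, bwd D x (.inr u) = bwd N.D x u := by
    subst hD
    exact fun _ => rfl
  ext i j
  rw [openMat_true_apply]
  rcases i with i | i <;> rcases j with j | j
  · rw [Matrix.fromBlocks_apply₁₁, openMat_false_apply _ _ hM]
    simp only [hU1, hO2, hS1, e1, e2, Sum.inl.injEq, reduceCtorEq, if_false]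
    by_cases h1 : i = M.l
    · have h2 : ¬ (i = M.r) := fun h => hM (h1.symm.trans h)
      simp only [h1, true_or, if_true]
    · by_cases h2 : i = M.r
      · simp only [if_neg h1, if_pos h2, reduceCtorEq, if_false, mul_zero]
        simp only [h2, or_true, if_true]
      · have h3 : ¬ (i = M.l ∨ i = M.r) := not_or.mpr ⟨h1, h2⟩
        simp only [if_neg h1, if_neg h2, if_neg h3, Sum.inl.injEq]
  · rw [Matrix.fromBlocks_apply₁₂, Matrix.neg_apply, Matrix.single_apply]
    simp only [hU1, hO2, hS1, e1, e2, Sum.inl.injEq, reduceCtorEq, if_false]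
    by_cases h1 : i = M.r
    · subst h1
      have h2 : ¬ (M.r = M.l) := fun h => hM h.symm
      by_cases h3 : j = N.D.underNext N.l
      · subst h3
        simp [h2]
      · have h3' : ¬ (N.D.underNext N.l = j) := fun h => h3 h.symm
        simp [h2, h3, h3']
    · have h1' : ¬ (M.r = i) := fun h => h1 h.symm
      simp only [if_neg h1, h1', false_and, reduceCtorEq, if_false]
      simp
  · rw [Matrix.fromBlocks_apply₂₁, Matrix.neg_apply, Matrix.single_apply]
    simp only [hU2, hO2, hS2, e3, e4, Sum.inr.injEq, reduceCtorEq, if_false]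
    by_cases h1 : i = N.l
    · subst h1
      by_cases h3 : j = M.D.underNext M.r
      · subst h3
        simp
      · have h3' : ¬ (M.D.underNext M.r = j) := fun h => h3 h.symm
        simp [h3, h3']
    · have h1' : ¬ (N.l = i) := fun h => h1 h.symm
      simp only [if_neg h1, h1', false_and, reduceCtorEq, if_false]
      simp
  · rw [Matrix.fromBlocks_apply₂₂, openMat_true_apply]
    simp only [hU2, hO2, hS2, e3, e4, Sum.inr.injEq, reduceCtorEq, if_false]
    by_cases h1 : i = N.l
    · simp only [if_pos h1, reduceCtorEq, if_false, mul_zero]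
    · simp only [if_neg h1, Sum.inr.injEq]

/-- The marked diagram of `sum`. -/
theorem sum_aux (M N : Marked) (x : ℝ) (hM : M.l ≠ M.r) (hN : N.l ≠ N.r) :
    openMat false
      { V := M.V ⊕ N.V
        D := swapUnder (Pool.Agent.Helper37.Arb.union M.D N.D) (.inl M.r) (.inr N.l)
        l := .inl M.l
        r := .inr N.r } x =
    Matrix.fromBlocks (openMat false M x)
      (-Matrix.single M.r (N.D.underNext N.l) (fwd M.D x M.r))
      (-Matrix.single N.l (M.D.underNext M.r) (fwd N.D x N.l))
      (openMat false N x) := by
  generalize hD : swapUnder (Pool.Agent.Helper37.Arb.union M.D N.D) (.inl M.r) (.inr N.l) = D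
  have hU1 : ∀ u : M.V, D.underNext (.inl u) =
      if u = M.r then .inr (N.D.underNext N.l) else .inl (M.D.underNext u) := by
    subst hD
    exact fun u => swapUnder_inl M.D N.D M.r N.l u
  have hU2 : ∀ u : N.V, D.underNext (.inr u) =
      if u = N.l then .inl (M.D.underNext M.r) else .inr (N.D.underNext u) := by
    subst hD
    exact fun u => swapUnder_inr M.D N.D M.r N.l u
  have hO : D.overNext = Equiv.sumCongr M.D.overNext N.D.overNext := by
    subst hD
    rfl
  have hS1 : ∀ u : M.V, D.overNext.symm (.inl u) = .inl (M.D.overNext.symm u) := by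
    rw [hO]
    exact fun u => rfl
  have hS2 : ∀ u : N.V, D.overNext.symm (.inr u) = .inr (N.D.overNext.symm u) := by
    rw [hO]
    exact fun u => rfl
  have e1 : ∀ u, fwd D x (.inl u) = fwd M.D x u := by
    subst hD
    exact fun _ => rfl
  have e2 : ∀ u, bwd D x (.inl u) = bwd M.D x u := by
    subst hD
    exact fun _ => rfl
  have e3 : ∀ u, fwd D x (.inr u) = fwd N.D x u := by
    subst hD
    exact fun _ => rfl
  have e4 : ∀ u, bwd D x (.inr u) = bwd N.D x u := by
    subst hD
    exact fun _ => rfl
  ext i j
  rw [openMat_false_apply _ _ Sum.inl_ne_inr]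
  rcases i with i | i <;> rcases j with j | j
  · rw [Matrix.fromBlocks_apply₁₁, openMat_false_apply _ _ hM]
    simp only [hU1, hS1, e1, e2, Sum.inl.injEq, reduceCtorEq, or_false]
    by_cases h1 : i = M.l
    · simp only [h1, true_or, if_true]
    · by_cases h2 : i = M.r
      · simp only [if_neg h1, if_pos h2, reduceCtorEq, if_false, mul_zero]
        simp only [h2, or_true, if_true]
      · have h3 : ¬ (i = M.l ∨ i = M.r) := not_or.mpr ⟨h1, h2⟩
        simp only [if_neg h1, if_neg h2, if_neg h3, Sum.inl.injEq]
  · rw [Matrix.fromBlocks_apply₁₂, Matrix.neg_apply, Matrix.single_apply]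
    simp only [hU1, hS1, e1, e2, Sum.inl.injEq, reduceCtorEq, if_false, or_false]
    by_cases h1 : i = M.r
    · subst h1
      have h2 : ¬ (M.r = M.l) := fun h => hM h.symm
      by_cases h3 : j = N.D.underNext N.l
      · subst h3
        simp [h2]
      · have h3' : ¬ (N.D.underNext N.l = j) := fun h => h3 h.symm
        simp [h2, h3, h3']
    · have h1' : ¬ (M.r = i) := fun h => h1 h.symm
      simp only [if_neg h1, h1', false_and, reduceCtorEq, if_false]
      simp
  · rw [Matrix.fromBlocks_apply₂₁, Matrix.neg_apply, Matrix.single_apply]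
    simp only [hU2, hS2, e3, e4, Sum.inr.injEq, reduceCtorEq, if_false, false_or]
    by_cases h1 : i = N.l
    · subst h1
      by_cases h3 : j = M.D.underNext M.r
      · subst h3
        simp [hN]
      · have h3' : ¬ (M.D.underNext M.r = j) := fun h => h3 h.symm
        simp [hN, h3, h3']
    · have h1' : ¬ (N.l = i) := fun h => h1 h.symm
      simp only [if_neg h1, h1', false_and, reduceCtorEq, if_false]
      simp
  · rw [Matrix.fromBlocks_apply₂₂, openMat_false_apply _ _ hN]
    simp only [hU2, hS2, e3, e4, Sum.inr.injEq, reduceCtorEq, false_or]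
    by_cases h1 : i = N.l
    · have h2 : ¬ (i = N.r) := fun h => hN (h1.symm.trans h)
      have h3 : i = N.l ∨ i = N.r := Or.inl h1
      simp only [if_pos h1, if_neg h2, if_pos h3, reduceCtorEq, if_false, mul_zero]
    · by_cases h2 : i = N.r
      · have h3 : i = N.l ∨ i = N.r := Or.inr h2
        simp only [if_pos h2, if_pos h3]
      · have h3 : ¬ (i = N.l ∨ i = N.r) := not_or.mpr ⟨h1, h2⟩
        simp only [if_neg h1, if_neg h2, if_neg h3, Sum.inr.injEq]

/-- MATBLOCK for `stack`. -/
theorem matStack : GoalMatStack := fun S T x => stack_aux S.diag T.diag x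

/-- MATBLOCK for `beside`. -/
theorem matBeside : GoalMatBeside := fun P T x h => beside_aux P.diag T.diag x h

/-- MATBLOCK for `opposite`. -/
theorem matOpposite : GoalMatOpposite := fun S T x => opposite_aux S.diag T.diag x

/-- MATBLOCK for `sum`. -/
theorem matSum : GoalMatSum := fun P Q x hP hQ => sum_aux P.diag Q.diag x hP hQ

end Pool.Agent.Helper12.Arb
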